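import Pool.Agent.Helper70.BRT.Spec

/-! # ITER: the iteration -/

namespace Pool.Agent.Helper70.BRT

universe u

variable {M : Type u} [PModel M]

/-- Replacing the oracles with number `≥ k` by `False`. -/
def ITER_cut (k : ℕ) : Fm M → Fm M
  | .eq s t => .eq s t
  | .lt s t => .lt s t
  | .mem i t => if i < k then .mem i t else .lt (.const 0) (.const 0)
  | .neg φ => .neg (ITER_cut k φ)
  | .and φ ψ => .and (ITER_cut k φ) (ITER_cut k ψ)
  | .ball t φ => .ball t (ITER_cut k φ)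

theorem ITER_eval_cut (φ : Fm M) (k : ℕ) (B B' : ℕ → Set M) (h1 : ∀ i, i < k → B' i = B i)
    (h2 : ∀ i, k ≤ i → B i = ∅) : ∀ v : ℕ → M, (ITER_cut k φ).eval B' v ↔ φ.eval B v := by
  induction φ with
  | eq s t => intro v; rfl
  | lt s t => intro v; rfl
  | mem i t =>
    intro v
    by_cases hi : i < k
    · simp only [ITER_cut, hi, if_true, Fm.eval, h1 i hi]
    · simp only [ITER_cut, hi, if_false, Fm.eval, Tm.eval, lt_irrefl, h2 i (not_lt.mp hi),
        Set.mem_empty_iff_false]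
  | neg φ ih => intro v; simp only [ITER_cut, Fm.eval, ih]
  | and φ ψ ih1 ih2 => intro v; simp only [ITER_cut, Fm.eval, ih1, ih2]
  | ball t φ ih => intro v; simp only [ITER_cut, Fm.eval, ih]

theorem ITER_sig {Γ : Type u} [Ctx M Γ] {k : ℕ} {B B' : ℕ → Set M}
    (h1 : ∀ i, i < k → B' i = B i) (h2 : ∀ i, k ≤ i → B i = ∅) {R : Γ → Prop} (hR : Sig1 B R) :
    Sig1 B' R := by
  obtain ⟨φ, hφ⟩ := hR
  exact ⟨ITER_cut k φ, fun g => by simp only [ITER_eval_cut φ k B B' h1 h2]; exact hφ g⟩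

theorem ITER_recP {Γ : Type u} [Ctx M Γ] {k : ℕ} {B B' : ℕ → Set M}
    (h1 : ∀ i, i < k → B' i = B i) (h2 : ∀ i, k ≤ i → B i = ∅) {R : Γ → Prop} (hR : RecP B R) :
    RecP B' R := ⟨ITER_sig h1 h2 hR.1, ITER_sig h1 h2 hR.2⟩

/-- The states of the construction. -/
structure ITER_St (M : Type u) [PModel M] where
  /-- the oracles -/
  B : ℕ → Set M
  /-- the number of oracles -/
  k : ℕ
  nice : Nice B
  emp : ∀ i, k ≤ i → B i = ∅

/-- The set defined by a formula. -/
def ITER_set (φ : Fm M) (B : ℕ → Set M) : Set M := {x | ∃ z, φ.eval B (cons z (env x))}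

theorem ITER_step (hCORE : ST_CORE.{u}) [Countable M] (bd : M → M) (hC : CodAPI M bd)
    (pw card : M → M) (hP : PrimAPI M pw card) (hK : CardAPI M card) (r : Fm M × M)
    (st : ITER_St M) :
    ∃ st' : ITER_St M, st.k ≤ st'.k ∧ (∀ i, i < st.k → st'.B i = st.B i) ∧
      (RecP st.B (fun x => x ∈ ITER_set r.1 st.B) →
        NoClique (fun z : M × M => pair z.1 z.2 ∈ ITER_set r.1 st.B) card r.2 →
        ∃ H : Set M, RecP st'.B (fun x => x ∈ H) ∧ (∀ x, ∃ y ∈ H, x < y) ∧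
          (∀ x ∈ H, ∀ y ∈ H, x < y → pair x y ∉ ITER_set r.1 st.B)) := by
  classical
  by_cases hc : RecP st.B (fun x => x ∈ ITER_set r.1 st.B) ∧
      NoClique (fun z : M × M => pair z.1 z.2 ∈ ITER_set r.1 st.B) card r.2
  · obtain ⟨hR, hN⟩ := hc
    have hf : RecP st.B (fun z : M × M => pair z.1 z.2 ∈ ITER_set r.1 st.B) :=
      RecP.comp (R := fun x : M => x ∈ ITER_set r.1 st.B) hR
        (F := fun z : M × M => pair z.1 z.2) (Rec.pair PMap.id.fst.rec PMap.id.snd.rec)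
    obtain ⟨H, h1, h2, h3⟩ := hCORE M bd hC pw card hP hK st.B st.nice ⟨st.k, st.emp⟩ _ r.2 hf hN
      st.k (st.emp _ le_rfl)
    refine ⟨⟨Function.update st.B st.k H, st.k + 1, h3, ?_⟩, Nat.le_succ _, ?_, fun _ _ =>
      ⟨H, ?_, h1, h2⟩⟩
    · intro i hi
      rw [Function.update_of_ne (by omega)]
      exact st.emp i (by omega)
    · intro i hi
      exact Function.update_of_ne (by omega) _ _
    · have := RecP.mem (A := Function.update st.B st.k H) st.k (Rec.id (Γ := M))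
      rw [Function.update_self] at this
      exact this
  · exact ⟨st, le_rfl, fun i _ => rfl, fun h1 h2 => absurd ⟨h1, h2⟩ hc⟩

theorem st_ITER (hCORE : ST_CORE.{u}) : ST_ITER.{u} := by
  classical
  intro M _ _ bd hC pw card hP hK A hA hm
  obtain ⟨m₀, hm₀⟩ := hm
  have : Encodable M := Encodable.ofCountable M
  have : Nonempty (Fm M × M) := ⟨(.eq (.const 0) (.const 0), 0)⟩
  obtain ⟨ρ, hρ⟩ := exists_surjective_nat (Fm M × M)
  choose nxt hk hB hsol using ITER_step hCORE bd hC pw card hP hK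
  let seq : ℕ → ITER_St M := fun s =>
    Nat.rec ⟨A, m₀, hA, hm₀⟩ (fun s S => nxt (ρ (Nat.unpair s).1) S) s
  have hseq : ∀ s, seq (s + 1) = nxt (ρ (Nat.unpair s).1) (seq s) := fun s => rfl
  have hmono : ∀ s s', s ≤ s' → (seq s).k ≤ (seq s').k ∧
      ∀ i, i < (seq s).k → (seq s').B i = (seq s).B i := by
    intro s s' h
    induction s', h using Nat.le_induction with
    | base => exact ⟨le_rfl, fun i _ => rfl⟩
    | succ s' _ ih =>
      rw [hseq]
      refine ⟨ih.1.trans (hk _ _), fun i hi => ?_⟩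
      rw [hB _ _ i (lt_of_lt_of_le hi ih.1)]
      exact ih.2 i hi
  have hrec : ∀ s s', s ≤ s' → ∀ {X : Set M}, RecP (seq s).B (fun x => x ∈ X) →
      RecP (seq s').B (fun x => x ∈ X) := fun s s' h X hX =>
    ITER_recP (hmono s s' h).2 (seq s).emp hX
  refine ⟨{X | ∃ s, RecP (seq s).B (fun x => x ∈ X)}, fun i => ⟨0, RecP.mem i Rec.id⟩, ?_, ?_⟩
  · intro V hV N
    choose s hs using hV
    refine ⟨(seq ((Finset.range N).sup s)).B, (seq _).nice, fun i hi => ?_, fun X hX => ⟨_, hX⟩⟩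
    exact hrec (s i) _ (Finset.le_sup (f := s) (Finset.mem_range.mpr hi)) (hs i)
  · rintro F ⟨s, hs⟩ l hl
    obtain ⟨φ, hφ⟩ := hs.1
    obtain ⟨a, ha⟩ := hρ (ITER_cut (seq s).k φ, l)
    have hs' : s ≤ Nat.pair a s := Nat.right_le_pair a s
    have hset : ITER_set (ITER_cut (seq s).k φ) (seq (Nat.pair a s)).B = F := by
      ext x
      change (∃ z, (ITER_cut (seq s).k φ).eval (seq (Nat.pair a s)).B (cons z (env x))) ↔ x ∈ F
      refine Iff.trans ?_ (hφ x).symm
      exact exists_congr fun z =>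
        ITER_eval_cut φ (seq s).k (seq s).B _ (hmono s _ hs').2 (seq s).emp _
    have h1 := hsol (ρ (Nat.unpair (Nat.pair a s)).1) (seq (Nat.pair a s))
    rw [← hseq, Nat.unpair_pair, ha] at h1
    dsimp only at h1
    rw [hset] at h1
    obtain ⟨H, hH, h2, h3⟩ := h1 (hrec s _ hs' hs) hl
    exact ⟨H, ⟨Nat.pair a s + 1, hH⟩, h2, h3⟩

end Pool.Agent.Helper70.BRT
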