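import Pool.Agent.Helper70.BRT.Spec

/-! # PATH: unbounded `Δ₁` trees have paths preserving `Base` -/

namespace Pool.Agent.Helper70.BRT

universe u

variable {M : Type u} [PModel M]

/-- Trees without unboundedness. -/
structure PATH_Pre (A : ℕ → Set M) (T : M × M → Prop) : Prop where
  rc : RecP A T
  agree : ∀ n c c', Agree n c c' → T (n, c) → T (n, c')
  down : ∀ n n' c, n ≤ n' → T (n', c) → T (n, c)

/-- Unbounded. -/
def PATH_Unb (T : M × M → Prop) : Prop := ∀ n, ∃ n' c, n ≤ n' ∧ T (n', c)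

theorem PATH_rec_el {bd : M → M} (hC : CodAPI M bd) (A : ℕ → Set M) (c : M) :
    RecP A (fun x : M => el x c) :=
  RecP.comp (R := fun z : M × M => el z.1 z.2) (hC.el_rec.of_pure A)
    (Rec.prodMk Rec.id (Rec.const c))

theorem PATH_mk_el {bd : M → M} (hC : CodAPI M bd) {A : ℕ → Set M} (hA : Base A) (n c x : M) :
    el x (mk n (fun x => el x c)) ↔ x < n ∧ el x c :=
  hC.mk_spec A hA _ (PATH_rec_el hC A c) n x

theorem PATH_agree_mk {bd : M → M} (hC : CodAPI M bd) {A : ℕ → Set M} (hA : Base A) (n c : M) :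
    Agree n c (mk n (fun x => el x c)) := by
  intro x hx
  rw [PATH_mk_el hC hA]
  exact ⟨fun h => ⟨hx, h⟩, fun h => h.2⟩

/-- A bounded family of bounded trees is uniformly bounded. -/
theorem PATH_bound {bd : M → M} (hC : CodAPI M bd) {A : ℕ → Set M} (hA : Base A)
    (S : M → M × M → Prop) (hS : RecP A (fun g : (M × M) × M => S g.1.1 (g.1.2, g.2)))
    (hag : ∀ x n c c', Agree n c c' → S x (n, c) → S x (n, c'))
    (hdn : ∀ x n n' c, n ≤ n' → S x (n', c) → S x (n, c)) (b : M)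
    (hb : ∀ x, x < b → ¬ PATH_Unb (S x)) : ∃ B, ∀ x, x < b → ∀ c, ¬ S x (B, c) := by
  have h1 : RecP A (fun z : M × M => ∀ c, c < bd z.2 → ¬ S z.1 (z.2, c)) := by
    refine RecP.ball hA.coll (t := fun z : M × M => bd z.2) ?_ (R := fun z c => ¬ S z.1 (z.2, c)) ?_
    · exact (hC.bd_rec.of_pure A).comp PMap.id.snd.rec
    · exact hS.not
  obtain ⟨B, hB⟩ := hA.coll _ h1.1 b (by
    intro x hx
    have h2 := hb x hx
    unfold PATH_Unb at h2
    push Not at h2
    obtain ⟨n, hn⟩ := h2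
    exact ⟨n, fun c _ => hn n c le_rfl⟩)
  refine ⟨B, fun x hx c hc => ?_⟩
  obtain ⟨m, hm, hm2⟩ := hB x hx
  have h3 := hdn x m B c hm.le hc
  have h4 := hag x m c _ (PATH_agree_mk hC hA m c) h3
  exact hm2 _ (hC.mk_lt A hA _ (PATH_rec_el hC A c) m) h4

/-- Requirement (i). -/
theorem PATH_step1 {bd : M → M} (hC : CodAPI M bd) {A : ℕ → Set M} (hA : Base A)
    {T : M × M → Prop} (hT : PATH_Pre A T) (hU : PATH_Unb T) (n : M) :
    ∃ T' : M × M → Prop, PATH_Pre A T' ∧ PATH_Unb T' ∧ (∀ z, T' z → T z) ∧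
      ∃ c₀, ∀ n' c, T' (n', c) → ∀ x, x < n → x < n' → (el x c ↔ el x c₀) := by
  classical
  set S : M → M × M → Prop := fun c₀ z =>
    T z ∧ ∀ x, x < z.1 → (x < n → (el x z.2 ↔ el x c₀)) with hSdef
  have hSrec : RecP A (fun g : (M × M) × M => S g.1.1 (g.1.2, g.2)) := by
    refine (hT.rc.comp (F := fun g : (M × M) × M => (g.1.2, g.2))
      (Rec.prodMk PMap.id.fst.snd.rec PMap.id.snd.rec)).and ?_
    refine RecP.ball hA.coll (t := fun g : (M × M) × M => g.1.2) PMap.id.fst.snd.rec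
      (R := fun g x => x < n → (el x g.2 ↔ el x g.1.1)) ?_
    refine (RecP.lt PMap.id.snd.rec (Rec.const n)).imp (RecP.iff ?_ ?_)
    · exact RecP.comp (R := fun z : M × M => el z.1 z.2) (hC.el_rec.of_pure A)
        (F := fun g : ((M × M) × M) × M => (g.2, g.1.2))
        (Rec.prodMk PMap.id.snd.rec PMap.id.fst.snd.rec)
    · exact RecP.comp (R := fun z : M × M => el z.1 z.2) (hC.el_rec.of_pure A)
        (F := fun g : ((M × M) × M) × M => (g.2, g.1.1.1))
        (Rec.prodMk PMap.id.snd.rec PMap.id.fst.fst.fst.rec)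
  have hag : ∀ x n c c', Agree n c c' → S x (n, c) → S x (n, c') := by
    intro c₀ m c c' h1 h2
    refine ⟨hT.agree m c c' h1 h2.1, fun x hx hxn => ?_⟩
    rw [← h1 x hx]
    exact h2.2 x hx hxn
  have hdn : ∀ x n n' c, n ≤ n' → S x (n', c) → S x (n, c) := by
    intro c₀ m m' c h1 h2
    exact ⟨hT.down m m' c h1 h2.1, fun x hx hxn => h2.2 x (lt_of_lt_of_le hx h1) hxn⟩
  by_cases hc : ∃ c₀, PATH_Unb (S c₀)
  · obtain ⟨c₀, h0⟩ := hc
    refine ⟨S c₀, ⟨?_, hag c₀, hdn c₀⟩, h0, fun z hz => hz.1, c₀, ?_⟩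
    · exact RecP.comp (R := fun g : (M × M) × M => S g.1.1 (g.1.2, g.2)) hSrec
        (F := fun z : M × M => ((c₀, z.1), z.2))
        (Rec.prodMk (Rec.prodMk (Rec.const c₀) PMap.id.fst.rec) PMap.id.snd.rec)
    · intro n' c h x hx hx'
      exact h.2 x hx' hx
  · exfalso
    push Not at hc
    obtain ⟨B, hB⟩ := PATH_bound hC hA S hSrec hag hdn (bd n) (fun x _ => hc x)
    obtain ⟨n', c, hn', hTc⟩ := hU (B + n)
    have h1 := hB (mk n (fun x => el x c)) (hC.mk_lt A hA _ (PATH_rec_el hC A c) n) c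
    refine h1 ⟨hT.down B n' c (le_trans le_self_add hn') hTc, fun x _ hx => ?_⟩
    exact PATH_agree_mk hC hA n c x hx

/-- The environment of three variables. -/
def PATH_env (x y z : M) : ℕ → M := cons z (cons y (cons x (fun _ => 0)))

theorem PATH_rec_tm {A : ℕ → Set M} {Γ : Type u} [Ctx M Γ] (V : Γ → ℕ → M)
    (hV : ∀ i, Rec A (fun g => V g i)) (t : Tm M) : Rec A (fun g => t.eval (V g)) := by
  induction t with
  | var i => exact hV i
  | const c => exact Rec.const c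
  | add s t hs ht => exact hs.add ht
  | mul s t hs ht => exact hs.mul ht

/-- Requirement (ii). -/
theorem PATH_step2 (hOR : ST_OR.{u}) (hOS : ST_OS.{u}) {bd : M → M} (hC : CodAPI M bd)
    {A : ℕ → Set M} (hA : Base A)
    {T : M × M → Prop} (hT : PATH_Pre A T) (hU : PATH_Unb T) (j : ℕ) (φ : Fm M) (a : M) :
    ∃ T' : M × M → Prop, PATH_Pre A T' ∧ PATH_Unb T' ∧ (∀ z, T' z → T z) ∧
      ∀ H : Set M, (∀ n, ∃ c, (∀ x, el x c ↔ x < n ∧ x ∈ H) ∧ T' (n, c)) →
        (∃ x, x < a ∧ ∀ y z, ¬ φ.eval (Function.update A j H) (PATH_env x y z)) ∨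
        (∃ B, ∀ x, x < a → ∃ y, y < B ∧ ∃ z, z < B ∧
          φ.eval (Function.update A j H) (PATH_env x y z)) := by
  classical
  obtain ⟨t, ht⟩ := hOR M φ j
  set S : M → M × M → Prop := fun x w =>
    T w ∧ ∀ y, y < w.1 → ∀ z, z < w.1 → (t.eval (PATH_env x y z) ≤ w.1 →
      ¬ φ.eval (Function.update A j {u | el u w.2}) (PATH_env x y z)) with hSdef
  have hSrec : RecP A (fun g : (M × M) × M => S g.1.1 (g.1.2, g.2)) := by
    refine (hT.rc.comp (F := fun g : (M × M) × M => (g.1.2, g.2))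
      (Rec.prodMk PMap.id.fst.snd.rec PMap.id.snd.rec)).and ?_
    refine RecP.ball hA.coll (t := fun g : (M × M) × M => g.1.2) PMap.id.fst.snd.rec
      (R := fun g y => ∀ z, z < g.1.2 → (t.eval (PATH_env g.1.1 y z) ≤ g.1.2 →
      ¬ φ.eval (Function.update A j {u | el u g.2}) (PATH_env g.1.1 y z))) ?_
    refine RecP.ball hA.coll (t := fun g : ((M × M) × M) × M => g.1.1.2) PMap.id.fst.fst.snd.rec
      (R := fun g z => (t.eval (PATH_env g.1.1.1 g.2 z) ≤ g.1.1.2 →
      ¬ φ.eval (Function.update A j {u | el u g.1.2}) (PATH_env g.1.1.1 g.2 z))) ?_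
    have hV : ∀ i : ℕ, Rec A (fun g : (((M × M) × M) × M) × M =>
        PATH_env g.1.1.1.1 g.1.2 g.2 i) := by
      intro i
      match i with
      | 0 => exact PMap.id.snd.rec
      | 1 => exact PMap.id.fst.snd.rec
      | 2 => exact PMap.id.fst.fst.fst.fst.rec
      | i + 3 => exact Rec.const 0
    refine RecP.imp (RecP.le ?_ PMap.id.fst.fst.fst.snd.rec) (RecP.not ?_)
    · exact PATH_rec_tm (fun g : (((M × M) × M) × M) × M =>
        PATH_env g.1.1.1.1 g.1.2 g.2) hV t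
    · exact hOS M bd hC A hA φ j _ (fun i (g : (((M × M) × M) × M) × M) =>
        PATH_env g.1.1.1.1 g.1.2 g.2 i) (fun g => g.1.1.2) hV PMap.id.fst.fst.snd.rec
  have hag : ∀ x n c c', Agree n c c' → S x (n, c) → S x (n, c') := by
    intro x m c c' h1 h2
    refine ⟨hT.agree m c c' h1 h2.1, fun y hy z hz htm h3 => ?_⟩
    refine h2.2 y hy z hz htm ?_
    refine (ht A {u | el u c'} {u | el u c} _ fun u hu => ?_).mp h3
    exact (h1 u (lt_of_lt_of_le hu htm)).symm
  have hdn : ∀ x n n' c, n ≤ n' → S x (n', c) → S x (n, c) := by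
    intro x m m' c h1 h2
    exact ⟨hT.down m m' c h1 h2.1, fun y hy z hz htm =>
      h2.2 y (lt_of_lt_of_le hy h1) z (lt_of_lt_of_le hz h1) (le_trans htm h1)⟩
  have hpath : ∀ (H : Set M) (n c : M), (∀ x, el x c ↔ x < n ∧ x ∈ H) → ∀ x y z,
      t.eval (PATH_env x y z) ≤ n → (φ.eval (Function.update A j {u | el u c}) (PATH_env x y z) ↔
        φ.eval (Function.update A j H) (PATH_env x y z)) := by
    intro H n c hc x y z hn
    refine ht A {u | el u c} H _ fun u hu => ?_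
    change el u c ↔ u ∈ H
    rw [hc u]
    exact ⟨fun h => h.2, fun h => ⟨lt_of_lt_of_le hu hn, h⟩⟩
  by_cases hc : ∃ x, x < a ∧ PATH_Unb (S x)
  · obtain ⟨x, hxa, h0⟩ := hc
    refine ⟨S x, ⟨?_, hag x, hdn x⟩, h0, fun z hz => hz.1, fun H hH => Or.inl ⟨x, hxa, ?_⟩⟩
    · exact RecP.comp (R := fun g : (M × M) × M => S g.1.1 (g.1.2, g.2)) hSrec
        (F := fun z : M × M => ((x, z.1), z.2))
        (Rec.prodMk (Rec.prodMk (Rec.const x) PMap.id.fst.rec) PMap.id.snd.rec)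
    · intro y z hyz
      obtain ⟨c, hc, hT'⟩ := hH (t.eval (PATH_env x y z) + (y + z + 1))
      have h1 : y < t.eval (PATH_env x y z) + (y + z + 1) :=
        lt_of_lt_of_le (lt_add_one_iff'.mpr le_self_add) le_add_self
      have h2 : z < t.eval (PATH_env x y z) + (y + z + 1) :=
        lt_of_lt_of_le (lt_add_one_iff'.mpr le_add_self) le_add_self
      refine hT'.2 y h1 z h2 le_self_add ?_
      exact (hpath H _ c hc x y z le_self_add).mpr hyz
  · push Not at hc
    obtain ⟨B, hB⟩ := PATH_bound hC hA S hSrec hag hdn a hc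
    refine ⟨T, hT, hU, fun z hz => hz, fun H hH => Or.inr ⟨B, fun x hx => ?_⟩⟩
    obtain ⟨c, hc, hTc⟩ := hH B
    have h1 := hB x hx c
    have h2 : ¬ ∀ y, y < B → ∀ z, z < B → (t.eval (PATH_env x y z) ≤ B →
      ¬ φ.eval (Function.update A j {u | el u c}) (PATH_env x y z)) := fun h => h1 ⟨hTc, h⟩
    push Not at h2
    obtain ⟨y, hy, z, hz, htB, hφ⟩ := h2
    exact ⟨y, hy, z, hz, (hpath H B c hc x y z htB).mp hφ⟩

theorem PATH_eval_mono (t : Tm M) (v w : ℕ → M) (h : ∀ i, v i ≤ w i) : t.eval v ≤ t.eval w := by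
  induction t with
  | var i => exact h i
  | const c => exact le_rfl
  | add s t hs ht => exact add_le_add hs ht
  | mul s t hs ht => exact mul_le_mul' hs ht

/-- `Base` from the requirements. -/
theorem PATH_base (hOR : ST_OR.{u}) (hOS : ST_OS.{u}) {bd : M → M} (hC : CodAPI M bd)
    {A : ℕ → Set M} (hA : Base A) (j : ℕ) (H : Set M)
    (h1 : ∀ n, ∃ c, ∀ x, el x c ↔ x < n ∧ x ∈ H)
    (h2 : ∀ (φ : Fm M) (a : M),
        (∃ x, x < a ∧ ∀ y z, ¬ φ.eval (Function.update A j H) (PATH_env x y z)) ∨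
        (∃ B, ∀ x, x < a → ∃ y, y < B ∧ ∃ z, z < B ∧
          φ.eval (Function.update A j H) (PATH_env x y z))) :
    Base (Function.update A j H) := by
  have henv : ∀ x y z : M, (cons z (env (x, y)) : ℕ → M) = PATH_env x y z := by
    intro x y z
    unfold PATH_env
    rw [env_cons, env_self]
  have hcoll : Coll1 (Function.update A j H) := by
    intro R hR a ha
    obtain ⟨φ, hφ⟩ := hR
    rcases h2 φ a with ⟨x, hx, h3⟩ | ⟨B, hB⟩
    · exfalso
      obtain ⟨y, hy⟩ := ha x hx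
      obtain ⟨z, hz⟩ := (hφ (x, y)).mp hy
      rw [henv] at hz
      exact h3 y z hz
    · refine ⟨B, fun x hx => ?_⟩
      obtain ⟨y, hy, z, -, hz⟩ := hB x hx
      exact ⟨y, hy, (hφ (x, y)).mpr ⟨z, by rw [henv]; exact hz⟩⟩
  refine ⟨?_, hcoll⟩
  intro P hP h0 hs a
  obtain ⟨⟨φ, hφ⟩, ⟨ψ, hψ⟩⟩ := hP
  obtain ⟨b, hb⟩ := hcoll (fun w : M × M => φ.eval (Function.update A j H) (cons w.2 (env w.1)) ∨
      ψ.eval (Function.update A j H) (cons w.2 (env w.1))) (by
    refine D0.sig1 (D0.or ?_ ?_)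
    · exact ⟨φ, fun g => by
        obtain ⟨g1, g2⟩ := g
        rw [env_cons]⟩
    · exact ⟨ψ, fun g => by
        obtain ⟨g1, g2⟩ := g
        rw [env_cons]⟩) (a + 1) (by
    intro x _
    by_cases hx : P x
    · obtain ⟨z, hz⟩ := (hφ x).mp hx
      exact ⟨z, Or.inl hz⟩
    · obtain ⟨z, hz⟩ := (hψ x).mp hx
      exact ⟨z, Or.inr hz⟩)
  have hPb : ∀ x, x < a + 1 → (P x ↔ ∃ z, z < b ∧
      φ.eval (Function.update A j H) (cons z (env x))) := by
    intro x hx
    constructor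
    · intro hPx
      obtain ⟨z, hz, h3⟩ := hb x hx
      rcases h3 with h3 | h3
      · exact ⟨z, hz, h3⟩
      · exact absurd hPx ((hψ x).mpr ⟨z, h3⟩)
    · rintro ⟨z, -, hz⟩
      exact (hφ x).mpr ⟨z, hz⟩
  obtain ⟨t, ht⟩ := hOR M φ j
  obtain ⟨c, hc⟩ := h1 (t.eval (cons b (cons (a + 1) (fun _ => 0))))
  have hPc : ∀ x, x < a + 1 → (P x ↔ ∃ z, z < b ∧
      φ.eval (Function.update A j {u | el u c}) (cons z (cons x (fun _ => 0)))) := by
    intro x hx
    rw [hPb x hx]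
    refine exists_congr fun z => and_congr_right fun hz => ?_
    rw [env_self]
    refine ht A H {u | el u c} _ fun u hu => ?_
    change u ∈ H ↔ el u c
    rw [hc u]
    refine ⟨fun h => ⟨lt_of_lt_of_le hu (PATH_eval_mono t _ _ ?_), h⟩, fun h => h.2⟩
    intro i
    match i with
    | 0 => exact hz.le
    | 1 => exact hx.le
    | i + 2 => exact le_rfl
  have key : ∀ x, (x < a + 1 → ∃ z, z < b ∧
      φ.eval (Function.update A j {u | el u c}) (cons z (cons x (fun _ => 0)))) := by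
    refine hA.ind _ ?_ ?_ ?_
    · refine RecP.imp (RecP.lt Rec.id (Rec.const _)) ?_
      refine RecP.bex hA.coll (t := fun _ : M => b) (Rec.const b)
        (R := fun x z => φ.eval (Function.update A j {u | el u c}) (cons z (cons x (fun _ => 0)))) ?_
      have := hOS M bd hC A hA φ j (M × M) (fun i g => cons g.2 (cons g.1 (fun _ => 0)) i)
        (fun _ => c) (by
          intro i
          match i with
          | 0 => exact PMap.id.snd.rec
          | 1 => exact PMap.id.fst.rec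
          | i + 2 => exact Rec.const 0) (Rec.const c)
      exact this
    · intro h
      exact (hPc 0 h).mp h0
    · intro x hx hxa
      have h3 : x < a + 1 := lt_trans (lt_add_one' x) hxa
      exact (hPc (x + 1) hxa).mp (hs x ((hPc x h3).mpr (hx h3)))
  exact (hPc a (lt_add_one' a)).mpr (key a (lt_add_one' a))

theorem st_PATH (hOR : ST_OR.{u}) (hOS : ST_OS.{u}) : ST_PATH.{u} := by
  classical
  intro M _ _ bd hC A hA j _ T hTrec hTag hTdn hTunb
  have : Encodable M := Encodable.ofCountable M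
  obtain ⟨req, hreq⟩ := exists_surjective_nat (M ⊕ (Fm M × M))
  -- the requirement met by a tree
  let Meets : (M × M → Prop) → M ⊕ (Fm M × M) → Prop := fun T' r => match r with
    | Sum.inl n => ∃ c₀, ∀ n' c, T' (n', c) → ∀ x, x < n → x < n' → (el x c ↔ el x c₀)
    | Sum.inr (φ, a) => ∀ H : Set M, (∀ n, ∃ c, (∀ x, el x c ↔ x < n ∧ x ∈ H) ∧ T' (n, c)) →
        (∃ x, x < a ∧ ∀ y z, ¬ φ.eval (Function.update A j H) (PATH_env x y z)) ∨
        (∃ B, ∀ x, x < a → ∃ y, y < B ∧ ∃ z, z < B ∧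
          φ.eval (Function.update A j H) (PATH_env x y z))
  have hstep : ∀ (r : M ⊕ (Fm M × M)) (S : {S : M × M → Prop // PATH_Pre A S ∧ PATH_Unb S}),
      ∃ S' : {S : M × M → Prop // PATH_Pre A S ∧ PATH_Unb S}, (∀ z, S'.1 z → S.1 z) ∧
        Meets S'.1 r := by
    intro r S
    match r with
    | Sum.inl n =>
      obtain ⟨T', h1, h2, h3, h4⟩ := PATH_step1 hC hA S.2.1 S.2.2 n
      exact ⟨⟨T', h1, h2⟩, h3, h4⟩
    | Sum.inr (φ, a) =>
      obtain ⟨T', h1, h2, h3, h4⟩ := PATH_step2 hOR hOS hC hA S.2.1 S.2.2 j φ a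
      exact ⟨⟨T', h1, h2⟩, h3, h4⟩
  choose nxt hnxt1 hnxt2 using hstep
  let seq : ℕ → {S : M × M → Prop // PATH_Pre A S ∧ PATH_Unb S} := fun s =>
    Nat.rec ⟨T, ⟨hTrec, hTag, hTdn⟩, hTunb⟩ (fun s S => nxt (req s) S) s
  have hseq : ∀ s, seq (s + 1) = nxt (req s) (seq s) := fun s => rfl
  have hdec : ∀ s s', s ≤ s' → ∀ z, (seq s').1 z → (seq s).1 z := by
    intro s s' hss
    induction s', hss using Nat.le_induction with
    | base => exact fun z hz => hz
    | succ s' _ ih =>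
      intro z hz
      rw [hseq] at hz
      exact ih z (hnxt1 _ _ z hz)
  -- deciding initial segments
  have hdet : ∀ n : M, ∃ s c₀, ∀ n' c, (seq s).1 (n', c) → ∀ x, x < n → x < n' →
      (el x c ↔ el x c₀) := by
    intro n
    obtain ⟨s, hs⟩ := hreq (Sum.inl n)
    have h1 := hnxt2 (req s) (seq s)
    rw [← hseq, hs] at h1
    obtain ⟨c₀, hc₀⟩ := h1
    exact ⟨s + 1, c₀, hc₀⟩
  let H : Set M := {x | ∃ s, ∀ n' c, (seq s).1 (n', c) → x < n' → el x c}
  have hH : ∀ n : M, ∃ c, (∀ x, el x c ↔ x < n ∧ x ∈ H) ∧ ∀ s, (seq s).1 (n, c) := by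
    intro n
    obtain ⟨s, c₀, hc₀⟩ := hdet n
    refine ⟨mk n (fun x => el x c₀), ?_, ?_⟩
    · intro x
      rw [PATH_mk_el hC hA]
      refine and_congr_right fun hx => ?_
      constructor
      · intro hel
        exact ⟨s, fun n' c hz hx' => (hc₀ n' c hz x hx hx').mpr hel⟩
      · rintro ⟨s', hs'⟩
        obtain ⟨n', c, hn', hz⟩ := (seq (max s s')).2.2 (x + 1)
        have hx' : x < n' := add_one_le_iff'.mp hn'
        have h3 := hs' n' c (hdec s' _ (le_max_right _ _) _ hz) hx'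
        exact (hc₀ n' c (hdec s _ (le_max_left _ _) _ hz) x hx hx').mp h3
    · intro s'
      obtain ⟨n', c, hn', hz⟩ := (seq (max s s')).2.2 n
      have h3 := (seq s').2.1.down n n' c hn' (hdec s' _ (le_max_right _ _) _ hz)
      refine (seq s').2.1.agree n c _ ?_ h3
      intro x hx
      rw [PATH_mk_el hC hA]
      have h4 := hc₀ n' c (hdec s _ (le_max_left _ _) _ hz) x hx (lt_of_lt_of_le hx hn')
      rw [h4]
      exact ⟨fun h => ⟨hx, h⟩, fun h => h.2⟩
  refine ⟨H, ?_, ?_⟩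
  · intro n
    obtain ⟨c, hc, hs⟩ := hH n
    exact ⟨c, hc, hs 0⟩
  · refine PATH_base hOR hOS hC hA j H ?_ ?_
    · intro n
      obtain ⟨c, hc, -⟩ := hH n
      exact ⟨c, hc⟩
    · intro φ a
      obtain ⟨s, hs⟩ := hreq (Sum.inr (φ, a))
      have h1 := hnxt2 (req s) (seq s)
      rw [← hseq, hs] at h1
      refine h1 H fun n => ?_
      obtain ⟨c, hc, hs2⟩ := hH n
      exact ⟨c, hc, hs2 (s + 1)⟩

end Pool.Agent.Helper70.BRT
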